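import Pool.Agent.W40.TC.Idx
import Pool.Agent.W198.TC.Main

/-! Close pairs, close triples and clusters of zeros in terms of indices. -/

set_option autoImplicit false

open Complex Filter Topology Set MeasureTheory

namespace Pool.Agent.W40.TCI

open TC TC.GlobAux

/-- the indices of ordinates at most `T` at distance at most `r` from `ord n` -/
noncomputable def near (T r : ℝ) (n : ℕ) : Finset ℕ :=
  open Classical in (Finset.Icc 1 (SG.NZ T)).filter (fun m => |SG.ord m - SG.ord n| ≤ r)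

theorem near_card_le (hRH : RiemannHypothesis) (T r : ℝ) (n : ℕ) :
    (near T r n).card ≤ kk (ordT T) mu r (SG.ord n) := by
  classical
  have h := near_le hRH T r (SG.ord n)
  unfold near
  convert h

theorem self_mem_near {T r : ℝ} (hr : 0 ≤ r) {n : ℕ} (hn : n ∈ Finset.Icc 1 (SG.NZ T)) :
    n ∈ near T r n := by
  classical
  unfold near
  rw [Finset.mem_filter]
  refine ⟨hn, ?_⟩
  rw [sub_self, abs_zero]
  exact hr

/-- the pairs -/
def P2 (T r : ℝ) : Set (Fin 2 → ℕ) :=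
  {j | Function.Injective j ∧ (∀ i, 1 ≤ j i ∧ SG.ord (j i) ≤ T) ∧
    |SG.ord (j 0) - SG.ord (j 1)| ≤ r}

/-- the triples -/
def P3 (T r : ℝ) : Set (Fin 3 → ℕ) :=
  {j | Function.Injective j ∧ (∀ i, 1 ≤ j i ∧ SG.ord (j i) ≤ T) ∧
    |SG.ord (j 0) - SG.ord (j 2)| ≤ r ∧ |SG.ord (j 1) - SG.ord (j 2)| ≤ r}

theorem P2_le {T r : ℝ} (hr : 0 ≤ r) :
    (P2 T r).ncard ≤ ∑ n ∈ Finset.Icc 1 (SG.NZ T), ((near T r n).card - 1) := by
  classical
  set G : Finset (Fin 2 → ℕ) := (Finset.Icc 1 (SG.NZ T)).biUnion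
    (fun n => ((near T r n).erase n).image (fun m => ![m, n])) with hG
  have hsub : P2 T r ⊆ ↑G := by
    rintro j ⟨hj, hb, hd⟩
    rw [Finset.mem_coe, hG, Finset.mem_biUnion]
    have hS : ∀ i, j i ∈ Finset.Icc 1 (SG.NZ T) := fun i =>
      Finset.mem_Icc.2 ⟨(hb i).1, (SG.ord_le_iff (hb i).1 T).1 (hb i).2⟩
    refine ⟨j 1, hS 1, ?_⟩
    rw [Finset.mem_image]
    refine ⟨j 0, ?_, ?_⟩
    · rw [Finset.mem_erase]
      refine ⟨fun h => absurd (hj h) (by decide), ?_⟩
      unfold near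
      rw [Finset.mem_filter]
      exact ⟨hS 0, hd⟩
    · funext i
      fin_cases i <;> rfl
  refine (Set.ncard_le_ncard hsub (Finset.finite_toSet G)).trans ?_
  rw [Set.ncard_coe_finset]
  refine Finset.card_biUnion_le.trans ?_
  apply Finset.sum_le_sum
  intro n hn
  refine Finset.card_image_le.trans ?_
  rw [Finset.card_erase_of_mem (self_mem_near hr hn)]

theorem P3_le {T r : ℝ} (hr : 0 ≤ r) :
    (P3 T r).ncard ≤ ∑ n ∈ Finset.Icc 1 (SG.NZ T),
      ((near T r n).card - 1) * ((near T r n).card - 2) := by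
  classical
  set G : Finset (Fin 3 → ℕ) := (Finset.Icc 1 (SG.NZ T)).biUnion
    (fun n => ((near T r n).erase n).biUnion (fun m =>
      (((near T r n).erase n).erase m).image (fun l => ![m, l, n]))) with hG
  have hsub : P3 T r ⊆ ↑G := by
    rintro j ⟨hj, hb, hd, hd'⟩
    rw [Finset.mem_coe, hG, Finset.mem_biUnion]
    have hS : ∀ i, j i ∈ Finset.Icc 1 (SG.NZ T) := fun i =>
      Finset.mem_Icc.2 ⟨(hb i).1, (SG.ord_le_iff (hb i).1 T).1 (hb i).2⟩
    refine ⟨j 2, hS 2, ?_⟩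
    rw [Finset.mem_biUnion]
    refine ⟨j 0, ?_, ?_⟩
    · rw [Finset.mem_erase]
      refine ⟨fun h => absurd (hj h) (by decide), ?_⟩
      unfold near
      rw [Finset.mem_filter]
      exact ⟨hS 0, hd⟩
    · rw [Finset.mem_image]
      refine ⟨j 1, ?_, ?_⟩
      · rw [Finset.mem_erase, Finset.mem_erase]
        refine ⟨fun h => absurd (hj h) (by decide), fun h => absurd (hj h) (by decide), ?_⟩
        unfold near
        rw [Finset.mem_filter]
        exact ⟨hS 1, hd'⟩
      · funext i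
        fin_cases i <;> rfl
  refine (Set.ncard_le_ncard hsub (Finset.finite_toSet G)).trans ?_
  rw [Set.ncard_coe_finset]
  refine Finset.card_biUnion_le.trans ?_
  apply Finset.sum_le_sum
  intro n hn
  refine Finset.card_biUnion_le.trans ?_
  have hself := self_mem_near hr hn
  have h1 : ∀ m ∈ (near T r n).erase n,
      ((((near T r n).erase n).erase m).image (fun l => ![m, l, n])).card ≤
        (near T r n).card - 2 := by
    intro m hm
    refine Finset.card_image_le.trans ?_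
    rw [Finset.card_erase_of_mem hm, Finset.card_erase_of_mem hself]
    omega
  refine (Finset.sum_le_sum h1).trans ?_
  rw [Finset.sum_const, smul_eq_mul, Finset.card_erase_of_mem hself]

theorem P2_bound (hRH : RiemannHypothesis) {T r : ℝ} (hr : 0 ≤ r) :
    ((P2 T r).ncard : ℝ) ≤
      ∑ g ∈ ordT T, (mu g : ℝ) * ((kk (ordT T) mu r g - 1 : ℕ) : ℝ) := by
  have h1 := P2_le (T := T) hr
  have h2 : ∑ n ∈ Finset.Icc 1 (SG.NZ T), ((near T r n).card - 1) ≤
      ∑ n ∈ Finset.Icc 1 (SG.NZ T), (kk (ordT T) mu r (SG.ord n) - 1) :=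
    Finset.sum_le_sum fun n _ => Nat.sub_le_sub_right (near_card_le hRH T r n) 1
  have h3 := sum_idx_le hRH T (fun g => ((kk (ordT T) mu r g - 1 : ℕ) : ℝ))
    (fun g => Nat.cast_nonneg _)
  refine le_trans ?_ h3
  exact_mod_cast h1.trans h2

theorem P3_bound (hRH : RiemannHypothesis) {T r : ℝ} (hr : 0 ≤ r) :
    ((P3 T r).ncard : ℝ) ≤ ∑ g ∈ ordT T, (mu g : ℝ) *
      (((kk (ordT T) mu r g - 1) * (kk (ordT T) mu r g - 2) : ℕ) : ℝ) := by
  have h1 := P3_le (T := T) hr
  have h2 : ∑ n ∈ Finset.Icc 1 (SG.NZ T), ((near T r n).card - 1) * ((near T r n).card - 2) ≤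
      ∑ n ∈ Finset.Icc 1 (SG.NZ T),
        (kk (ordT T) mu r (SG.ord n) - 1) * (kk (ordT T) mu r (SG.ord n) - 2) :=
    Finset.sum_le_sum fun n _ => Nat.mul_le_mul (Nat.sub_le_sub_right (near_card_le hRH T r n) 1)
      (Nat.sub_le_sub_right (near_card_le hRH T r n) 2)
  have h3 := sum_idx_le hRH T (fun g => (((kk (ordT T) mu r g - 1) *
    (kk (ordT T) mu r g - 2) : ℕ) : ℝ)) (fun g => Nat.cast_nonneg _)
  refine le_trans ?_ h3
  exact_mod_cast h1.trans h2

/-- the indices with at least `m` indices (itself included) nearby -/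
def Cl (m : ℕ) (T r : ℝ) : Set ℕ :=
  {n | 1 ≤ n ∧ SG.ord n ≤ T ∧ m ≤ {i : ℕ | 1 ≤ i ∧ |SG.ord i - SG.ord n| ≤ r}.ncard}

theorem Cl_bound (hRH : RiemannHypothesis) (m : ℕ) {T r : ℝ} (hr0 : 0 ≤ r) (hr : r ≤ 1 / 2) :
    ((Cl m T r).ncard : ℝ) ≤
      ∑ g ∈ (ordT T).filter (fun g => m ≤ kk (ordT T) mu r g), (mu g : ℝ) +
      ∑ g ∈ (ordT T).filter (fun g => |g - T| ≤ 1 / 2), (mu g : ℝ) := by
  classical
  set A : Finset ℕ := (Finset.Icc 1 (SG.NZ T)).filter
    (fun n => m ≤ kk (ordT T) mu r (SG.ord n)) with hA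
  set B : Finset ℕ := (Finset.Icc 1 (SG.NZ T)).filter (fun n => |SG.ord n - T| ≤ 1 / 2) with hB
  have hsub : Cl m T r ⊆ ↑(A ∪ B) := by
    rintro n ⟨hn, hnT, hm⟩
    rw [Finset.coe_union]
    have hS : n ∈ Finset.Icc 1 (SG.NZ T) :=
      Finset.mem_Icc.2 ⟨hn, (SG.ord_le_iff hn T).1 hnT⟩
    by_cases h : |SG.ord n - T| ≤ 1 / 2
    · right
      rw [Finset.mem_coe, hB, Finset.mem_filter]
      exact ⟨hS, h⟩
    · left
      rw [Finset.mem_coe, hA, Finset.mem_filter]
      refine ⟨hS, ?_⟩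
      refine le_trans ?_ (near_card_le hRH T r n)
      refine hm.trans ?_
      have hsub2 : {i : ℕ | 1 ≤ i ∧ |SG.ord i - SG.ord n| ≤ r} ⊆ ↑(near T r n) := by
        rintro i ⟨hi, hi2⟩
        rw [Finset.mem_coe]
        unfold near
        rw [Finset.mem_filter, Finset.mem_Icc]
        refine ⟨⟨hi, ?_⟩, hi2⟩
        rw [← SG.ord_le_iff hi T]
        push Not at h
        rw [abs_of_nonpos (by linarith)] at h
        have := (abs_le.1 hi2).2
        linarith
      refine (Set.ncard_le_ncard hsub2 (Finset.finite_toSet _)).trans ?_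
      rw [Set.ncard_coe_finset]
  have h1 : (Cl m T r).ncard ≤ A.card + B.card := by
    refine (Set.ncard_le_ncard hsub (Finset.finite_toSet _)).trans ?_
    rw [Set.ncard_coe_finset]
    exact Finset.card_union_le _ _
  have h2 : (A.card : ℝ) ≤ ∑ g ∈ (ordT T).filter (fun g => m ≤ kk (ordT T) mu r g), (mu g : ℝ) := by
    have h := sum_idx_le hRH T (fun g => if m ≤ kk (ordT T) mu r g then 1 else 0)
      (fun g => by split_ifs <;> norm_num)
    rw [Finset.sum_boole] at h
    refine h.trans (le_of_eq ?_)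
    rw [Finset.sum_filter]
    apply Finset.sum_congr rfl
    intro g _
    split_ifs <;> simp
  have h3 : (B.card : ℝ) ≤ ∑ g ∈ (ordT T).filter (fun g => |g - T| ≤ 1 / 2), (mu g : ℝ) := by
    have h := sum_idx_le hRH T (fun g => if |g - T| ≤ 1 / 2 then 1 else 0)
      (fun g => by split_ifs <;> norm_num)
    rw [Finset.sum_boole] at h
    refine h.trans (le_of_eq ?_)
    rw [Finset.sum_filter]
    apply Finset.sum_congr rfl
    intro g _
    split_ifs <;> simp
  have h4 : ((Cl m T r).ncard : ℝ) ≤ (A.card : ℝ) + B.card := by exact_mod_cast h1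
  linarith

end Pool.Agent.W40.TCI
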