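import Pool.Agent.H382R2.Final0
import Pool.Agent.W376.TC.Glob

/-! Index bookkeeping for the ordinates of the zeros of the zeta function. -/

set_option autoImplicit false

open Complex Filter Topology Set MeasureTheory

namespace Pool.Agent.W40.TCI

open TC TC.GlobAux

theorem NZ_Z0 (t : ℝ) : SG.NZ t = ∑ s ∈ H343.ZSide.Z0 t, SG.zmult s := by
  rw [SG.NZ_eq]
  apply Finset.sum_congr _ (fun _ _ => rfl)
  ext s
  rw [Set.Finite.mem_toFinset, mem_Z0]
  unfold SG.ZS
  simp only [Set.mem_setOf_eq]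
  tauto

/-- number of zeros with ordinate smaller than `g` -/
noncomputable def NZlt (g : ℝ) : ℕ :=
  ∑ s ∈ (H343.ZSide.Z0 g).filter (fun s => s.im < g), SG.zmult s

theorem ord_lt {n : ℕ} (hn : 1 ≤ n) {g : ℝ} (hg : 0 < g) (h : n ≤ NZlt g) : SG.ord n < g := by
  classical
  set A := (H343.ZSide.Z0 g).filter (fun s => s.im < g) with hA
  obtain ⟨t, ht, htA⟩ : ∃ t : ℝ, t < g ∧ ∀ s ∈ A, s.im ≤ t := by
    by_cases hne : A.Nonempty
    · obtain ⟨s0, hs0, hmax⟩ := A.exists_max_image (fun s => s.im) hne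
      exact ⟨s0.im, (Finset.mem_filter.1 hs0).2, hmax⟩
    · refine ⟨0, hg, fun s hs => ?_⟩
      exact absurd ⟨s, hs⟩ hne
  have h1 : NZlt g ≤ SG.NZ t := by
    rw [NZ_Z0]
    unfold NZlt
    apply Finset.sum_le_sum_of_subset
    intro s hs
    have h2 := htA s hs
    rw [Finset.mem_filter, mem_Z0] at hs
    rw [mem_Z0]
    exact ⟨hs.1.1, hs.1.2.1, hs.1.2.2.1, h2, hs.1.2.2.2.2⟩
  exact ((SG.ord_le_iff hn t).2 (h.trans h1)).trans_lt ht

theorem NZ_split (g : ℝ) : SG.NZ g = NZlt g +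
    ∑ s ∈ (H343.ZSide.Z0 g).filter (fun s => s.im = g), SG.zmult s := by
  classical
  rw [NZ_Z0]
  unfold NZlt
  rw [← Finset.sum_filter_add_sum_filter_not (H343.ZSide.Z0 g) (fun s => s.im < g)]
  congr 1
  apply Finset.sum_congr _ (fun _ _ => rfl)
  ext s
  simp only [Finset.mem_filter, mem_Z0]
  constructor
  · rintro ⟨⟨a, b, c, d, e⟩, f⟩
    exact ⟨⟨a, b, c, d, e⟩, le_antisymm d (not_lt.1 f)⟩
  · rintro ⟨⟨a, b, c, d, e⟩, f⟩
    exact ⟨⟨a, b, c, d, e⟩, by rw [f]; exact lt_irrefl g⟩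

theorem top_le (hRH : RiemannHypothesis) (g : ℝ) :
    ∑ s ∈ (H343.ZSide.Z0 g).filter (fun s => s.im = g), SG.zmult s ≤ mu g := by
  classical
  have h1 : (H343.ZSide.Z0 g).filter (fun s => s.im = g) ⊆ {(1 / 2 + g * I : ℂ)} := by
    intro s hs
    rw [Finset.mem_filter, mem_Z0] at hs
    rw [Finset.mem_singleton]
    have := eq_half hRH hs.1.1 hs.1.2.1 hs.1.2.2.2.2
    rw [hs.2] at this
    exact this.symm
  refine (Finset.sum_le_sum_of_subset h1).trans ?_
  rw [Finset.sum_singleton]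
  exact le_rfl

theorem ord_mem {T : ℝ} {n : ℕ} (hn : 1 ≤ n) (hT : n ≤ SG.NZ T) : SG.ord n ∈ ordT T := by
  classical
  set g := SG.ord n with hg
  have hg0 : 0 < g := SG.ord_pos hn
  have hgT : g ≤ T := (SG.ord_le_iff hn T).2 hT
  by_contra hcon
  have h1 : (H343.ZSide.Z0 g).filter (fun s => s.im = g) = ∅ := by
    rw [Finset.filter_eq_empty_iff]
    intro s hs h2
    apply hcon
    unfold ordT
    rw [Finset.mem_image]
    refine ⟨s, ?_, h2⟩
    rw [mem_Z0] at hs ⊢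
    exact ⟨hs.1, hs.2.1, hs.2.2.1, hs.2.2.2.1.trans hgT, hs.2.2.2.2⟩
  have h2 := NZ_split g
  rw [h1, Finset.sum_empty, add_zero] at h2
  have h3 : n ≤ SG.NZ g := SG.le_NZ_ord hn
  rw [h2] at h3
  exact absurd (ord_lt hn hg0 h3) (lt_irrefl g)

theorem fiber_le (hRH : RiemannHypothesis) (N : ℕ) {g : ℝ} (hg : 0 < g) :
    ((Finset.Icc 1 N).filter (fun n => SG.ord n = g)).card ≤ mu g := by
  classical
  have h1 : (Finset.Icc 1 N).filter (fun n => SG.ord n = g) ⊆ Finset.Ioc (NZlt g) (SG.NZ g) := by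
    intro n hn
    rw [Finset.mem_filter, Finset.mem_Icc] at hn
    rw [Finset.mem_Ioc]
    constructor
    · by_contra hle
      push Not at hle
      have := ord_lt hn.1.1 hg hle
      rw [hn.2] at this
      exact lt_irrefl g this
    · rw [← hn.2]
      exact SG.le_NZ_ord hn.1.1
  refine (Finset.card_le_card h1).trans ?_
  rw [Nat.card_Ioc, NZ_split g, Nat.add_sub_cancel_left]
  exact top_le hRH g

/-- sums over indices are at most sums over ordinates with multiplicity -/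
theorem sum_idx_le (hRH : RiemannHypothesis) (T : ℝ) (F : ℝ → ℝ) (hF : ∀ g, 0 ≤ F g) :
    ∑ n ∈ Finset.Icc 1 (SG.NZ T), F (SG.ord n) ≤ ∑ g ∈ ordT T, (mu g : ℝ) * F g := by
  classical
  rw [← Finset.sum_fiberwise_of_maps_to (s := Finset.Icc 1 (SG.NZ T)) (t := ordT T)
    (g := SG.ord) (fun n hn => ord_mem (Finset.mem_Icc.1 hn).1 (Finset.mem_Icc.1 hn).2)]
  apply Finset.sum_le_sum
  intro g hg
  have h1 : ∑ n ∈ (Finset.Icc 1 (SG.NZ T)).filter (fun n => SG.ord n = g), F (SG.ord n) =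
      (((Finset.Icc 1 (SG.NZ T)).filter (fun n => SG.ord n = g)).card : ℝ) * F g := by
    rw [Finset.sum_congr rfl (fun n hn => by rw [(Finset.mem_filter.1 hn).2]),
      Finset.sum_const, nsmul_eq_mul]
  rw [h1]
  apply mul_le_mul_of_nonneg_right _ (hF g)
  exact_mod_cast fiber_le hRH _ (mem_ordT hg).1

/-- the number of indices near a point -/
theorem near_le (hRH : RiemannHypothesis) (T r x : ℝ) :
    ((Finset.Icc 1 (SG.NZ T)).filter (fun m => |SG.ord m - x| ≤ r)).card ≤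
      kk (ordT T) mu r x := by
  classical
  have h1 := sum_idx_le hRH T (fun g => if |g - x| ≤ r then 1 else 0)
    (fun g => by split_ifs <;> norm_num)
  have e1 : ∑ n ∈ Finset.Icc 1 (SG.NZ T), (if |SG.ord n - x| ≤ r then (1 : ℝ) else 0) =
      (((Finset.Icc 1 (SG.NZ T)).filter (fun m => |SG.ord m - x| ≤ r)).card : ℝ) := by
    rw [Finset.sum_boole]
  have e2 : ∑ g ∈ ordT T, (mu g : ℝ) * (if |g - x| ≤ r then (1 : ℝ) else 0) =
      (kk (ordT T) mu r x : ℝ) := by
    unfold kk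
    rw [Finset.sum_filter]
    push_cast
    apply Finset.sum_congr rfl
    intro g _
    split_ifs <;> simp
  rw [e1, e2] at h1
  exact_mod_cast h1

end Pool.Agent.W40.TCI
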